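import Mathlib
import Pool.Agent.H34.Cw

namespace Pool.Agent.Results.MP_0c56be_co.Unbounded
open Pool.Agent.H34.CwDefs Pool.Agent.H34.BridgeDefs

/-- For every `c` there is a (claw, `4K₁`, bridge)-free graph that is not perfect and has
clique-width greater than `c`. -/
theorem result (c : ℕ) : ∃ (V : Type) (_ : Fintype V) (_ : DecidableEq V) (G : SimpleGraph V),
    ¬ (completeBipartiteGraph (Fin 1) (Fin 3)).IsIndContained G ∧
    ¬ (⊥ : SimpleGraph (Fin 4)).IsIndContained G ∧ ¬ bridge.IsIndContained G ∧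
    ¬ Perfect G ∧ ¬ CwLE G c :=
  Pool.Agent.H34.Cw.bridge_main c

end Pool.Agent.Results.MP_0c56be_co.Unbounded
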